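import Pool.Agent.H12.QN.Stmts

/-!
# Row PB of the board `qnb`
-/

set_option autoImplicit false

namespace Pool.QN

open Finset MeasureTheory

instance pb_fin : IsFiniteMeasure mu := by
  unfold mu
  infer_instance

theorem pb_norm_ee (t : ℝ) : ‖ee t‖ = 1 := by
  unfold ee
  exact Complex.norm_exp_ofReal_mul_I _

theorem pb_cont_ee : Continuous ee := by
  unfold ee
  fun_prop

theorem pb_cont_uu {c B : ℝ} {φ φ1 φ2 : ℝ → ℝ} (h : Cur c B φ φ1 φ2) (d r : ℤ) (k : ℕ) :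
    ContinuousOn (uu d r φ k) (Set.Icc (-1) 1) := by
  have hφ : ContinuousOn φ (Set.Icc (-1) 1) := fun x hx => (h.d1 x hx).continuousWithinAt
  unfold uu
  refine pb_cont_ee.comp_continuousOn ?_
  exact (continuousOn_const.mul continuousOn_id).add (continuousOn_const.mul hφ)

theorem pb_cont_FA {c B : ℝ} {φ φ1 φ2 : ℝ → ℝ} (h : Cur c B φ φ1 φ2) (d r : ℤ) (K : ℕ) (a : ℕ → ℂ) :
    ContinuousOn (FA d r K a φ) (Set.Icc (-1) 1) := by
  unfold FA
  exact continuousOn_finsetSum _ fun k _ => continuousOn_const.mul (pb_cont_uu h d r k)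

theorem pb_bound_FA (φ : ℝ → ℝ) (d r : ℤ) (K : ℕ) (a : ℕ → ℂ) (x : ℝ) :
    ‖FA d r K a φ x‖ ≤ ∑ k ∈ range K, ‖a k‖ := by
  unfold FA
  refine (norm_sum_le _ _).trans (sum_le_sum fun k _ => ?_)
  rw [norm_mul]
  unfold uu
  rw [pb_norm_ee, mul_one]

/-- the algebra of the row -/
theorem pb_alg (I M T K lam m A S : ℝ) (hI : 0 ≤ I) (hM : 0 ≤ M) (hT : 0 ≤ T) (hK : 0 ≤ K)
    (hlam : 0 < lam) (hA : 0 ≤ A) (h1 : I ^ 2 ≤ A * S) (hS : 0 ≤ S)
    (h2 : A ^ 2 * S ^ 2 ≤ T * M ^ 2 * (K * M ^ 2 + I)) (h3 : lam * M ≤ I) (h4 : lam ^ 2 * m ≤ I)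
    (h5 : 2 * T * K ≤ lam ^ 4) : lam ^ 4 * m ≤ 2 * T := by
  have hI4 : I ^ 4 ≤ T * M ^ 2 * (K * M ^ 2 + I) := by
    calc I ^ 4 = (I ^ 2) ^ 2 := by ring
      _ ≤ (A * S) ^ 2 := pow_le_pow_left₀ (by positivity) h1 2
      _ = A ^ 2 * S ^ 2 := by ring
      _ ≤ _ := h2
  have key : lam ^ 2 * I ≤ 2 * T := by
    rcases hI.lt_or_eq with hpos | h0
    · have hM2 : (lam * M) ^ 2 ≤ I ^ 2 := pow_le_pow_left₀ (by positivity) h3 2
      have h6 : lam ^ 4 * I ^ 4 ≤ T * I ^ 2 * (K * I ^ 2 + lam ^ 2 * I) := by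
        calc lam ^ 4 * I ^ 4 ≤ lam ^ 4 * (T * M ^ 2 * (K * M ^ 2 + I)) :=
              mul_le_mul_of_nonneg_left hI4 (by positivity)
          _ = T * (lam * M) ^ 2 * (K * (lam * M) ^ 2 + lam ^ 2 * I) := by ring
          _ ≤ T * I ^ 2 * (K * I ^ 2 + lam ^ 2 * I) := by
              gcongr
      have h7 : lam ^ 4 * I ≤ T * (K * I + lam ^ 2) := by
        have h8 : I ^ 3 * (lam ^ 4 * I) ≤ I ^ 3 * (T * (K * I + lam ^ 2)) := by
          calc I ^ 3 * (lam ^ 4 * I) = lam ^ 4 * I ^ 4 := by ring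
            _ ≤ _ := h6
            _ = _ := by ring
        exact le_of_mul_le_mul_left h8 (by positivity)
      have h9 : lam ^ 2 * (lam ^ 2 * I) ≤ lam ^ 2 * (2 * T) := by nlinarith
      exact le_of_mul_le_mul_left h9 (by positivity)
    · rw [← h0]
      linarith
  calc lam ^ 4 * m = lam ^ 2 * (lam ^ 2 * m) := by ring
    _ ≤ lam ^ 2 * I := mul_le_mul_of_nonneg_left h4 (by positivity)
    _ ≤ 2 * T := key

theorem pb_thm (hDUA : DUAStmt) : PBStmt := by
  intro c B ε hε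
  obtain ⟨C₁, hC₁, hD⟩ := hDUA c B ε hε
  refine ⟨2 * C₁ + 1, by positivity, ?_⟩
  intro φ φ1 φ2 hcur d r hd K hK a lam hlam hhyp
  have hK0 : (0 : ℝ) < K := by exact_mod_cast hK
  set A : ℝ := ∑ k ∈ range K, ‖a k‖ ^ 2 with hA
  have hA0 : 0 ≤ A := sum_nonneg fun _ _ => by positivity
  set F : ℝ → ℂ := FA d r K a φ with hF
  have hFc : ContinuousOn F (Set.Icc (-1) 1) := pb_cont_FA hcur d r K a
  set E : Set ℝ := Set.Icc (-1) 1 ∩ F ⁻¹' {z | lam ≤ ‖z‖} with hE
  have hEc : IsClosed E :=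
    hFc.preimage_isClosed_of_isClosed isClosed_Icc (isClosed_le continuous_const continuous_norm)
  have hEm : MeasurableSet E := hEc.measurableSet
  have hFm : AEStronglyMeasurable F mu := hFc.aestronglyMeasurable measurableSet_Icc
  set f : ℝ → ℂ := E.indicator (fun x => (starRingEnd ℂ) (F x)) with hf
  have hfm : AEStronglyMeasurable f mu :=
    (Complex.continuous_conj.comp_aestronglyMeasurable hFm).indicator hEm
  have hfn : ∀ x, ‖f x‖ = E.indicator (fun x => ‖F x‖) x := by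
    intro x
    by_cases hx : x ∈ E
    · rw [hf, Set.indicator_of_mem hx, Set.indicator_of_mem hx, RCLike.norm_conj]
    · rw [hf, Set.indicator_of_notMem hx, Set.indicator_of_notMem hx, norm_zero]
  have hfb : ∀ x, ‖f x‖ ≤ ∑ k ∈ range K, ‖a k‖ := by
    intro x
    rw [hfn]
    by_cases hx : x ∈ E
    · rw [Set.indicator_of_mem hx]
      exact pb_bound_FA φ d r K a x
    · rw [Set.indicator_of_notMem hx]
      exact sum_nonneg fun _ _ => norm_nonneg _
  have hint : ∀ k, Integrable (fun x => f x * uu d r φ k x) mu := by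
    intro k
    refine Integrable.of_bound
      (hfm.mul ((pb_cont_uu hcur d r k).aestronglyMeasurable measurableSet_Icc))
      (∑ k ∈ range K, ‖a k‖) (ae_of_all _ fun x => ?_)
    rw [norm_mul]
    unfold uu
    rw [pb_norm_ee, mul_one]
    exact hfb x
  have hi1 : Integrable (fun x => ‖f x‖) mu :=
    Integrable.of_bound hfm.norm (∑ k ∈ range K, ‖a k‖) (ae_of_all _ fun x => by
      rw [norm_norm]; exact hfb x)
  have hi2 : Integrable (fun x => ‖f x‖ ^ 2) mu :=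
    Integrable.of_bound (hfm.norm.pow 2) ((∑ k ∈ range K, ‖a k‖) ^ 2) (ae_of_all _ fun x => by
      rw [norm_pow, norm_norm]; exact pow_le_pow_left₀ (norm_nonneg _) (hfb x) 2)
  set I : ℝ := ∫ x, ‖f x‖ ^ 2 ∂mu with hI
  set M : ℝ := ∫ x, ‖f x‖ ∂mu with hM
  have hI0 : 0 ≤ I := integral_nonneg fun x => by positivity
  have hM0 : 0 ≤ M := integral_nonneg fun x => norm_nonneg _
  set S : ℝ := ∑ k ∈ range K, ‖∫ x, f x * uu d r φ k x ∂mu‖ ^ 2 with hS
  have hS0 : 0 ≤ S := sum_nonneg fun _ _ => by positivity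
  -- I as a sum
  have hIsum : (I : ℂ) = ∑ k ∈ range K, a k * ∫ x, f x * uu d r φ k x ∂mu := by
    have e1 : ∑ k ∈ range K, a k * ∫ x, f x * uu d r φ k x ∂mu = ∫ x, f x * F x ∂mu := by
      rw [show (fun x => f x * F x) = fun x => ∑ k ∈ range K, a k * (f x * uu d r φ k x) by
        funext x
        rw [hF]
        unfold FA
        rw [mul_sum]
        exact sum_congr rfl fun k _ => by ring]
      rw [integral_finsetSum _ fun k _ => (hint k).const_mul (a k)]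
      exact sum_congr rfl fun k _ => (integral_const_mul _ _).symm
    rw [e1, hI, ← integral_complex_ofReal]
    refine integral_congr_ae (ae_of_all _ fun x => ?_)
    change ((‖f x‖ ^ 2 : ℝ) : ℂ) = f x * F x
    rw [hfn]
    by_cases hx : x ∈ E
    · rw [hf, Set.indicator_of_mem hx, Set.indicator_of_mem hx, mul_comm, Complex.mul_conj,
        Complex.normSq_eq_norm_sq]
    · rw [hf, Set.indicator_of_notMem hx, Set.indicator_of_notMem hx]
      simp
  have h1 : I ^ 2 ≤ A * S := by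
    have e1 : I = ‖∑ k ∈ range K, a k * ∫ x, f x * uu d r φ k x ∂mu‖ := by
      rw [← hIsum, Complex.norm_real, Real.norm_of_nonneg hI0]
    have e2 : I ≤ ∑ k ∈ range K, ‖a k‖ * ‖∫ x, f x * uu d r φ k x ∂mu‖ := by
      rw [e1]
      refine (norm_sum_le _ _).trans (sum_le_sum fun k _ => ?_)
      rw [norm_mul]
    calc I ^ 2 ≤ (∑ k ∈ range K, ‖a k‖ * ‖∫ x, f x * uu d r φ k x ∂mu‖) ^ 2 :=
          pow_le_pow_left₀ hI0 e2 2
      _ ≤ A * S := sum_mul_sq_le_sq_mul_sq _ _ _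
  have h2 := hD φ φ1 φ2 hcur d r hd K hK f hfm ⟨_, hfb⟩
  have h3 : lam * M ≤ I := by
    rw [hM, hI, ← integral_const_mul]
    refine integral_mono (hi1.const_mul lam) hi2 fun x => ?_
    change lam * ‖f x‖ ≤ ‖f x‖ ^ 2
    rw [hfn]
    by_cases hx : x ∈ E
    · rw [Set.indicator_of_mem hx]
      have : lam ≤ ‖F x‖ := hx.2
      nlinarith [norm_nonneg (F x)]
    · rw [Set.indicator_of_notMem hx]
      simp
  have hmuE : mu {x | lam ≤ ‖F x‖} = mu E := by
    unfold mu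
    rw [Measure.restrict_apply' measurableSet_Icc, Measure.restrict_apply' measurableSet_Icc]
    congr 1
    ext x
    constructor
    · rintro ⟨h, h'⟩
      exact ⟨⟨h', h⟩, h'⟩
    · rintro ⟨⟨-, h⟩, h'⟩
      exact ⟨h, h'⟩
  have h4 : lam ^ 2 * (mu {x | lam ≤ ‖F x‖}).toReal ≤ I := by
    have e1 : (mu {x | lam ≤ ‖F x‖}).toReal = ∫ x, E.indicator (fun _ => (1 : ℝ)) x ∂mu := by
      rw [hmuE, integral_indicator_const _ hEm, smul_eq_mul, mul_one]
      rfl
    rw [e1, hI, ← integral_const_mul]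
    refine integral_mono ?_ hi2 fun x => ?_
    · exact ((integrable_const (1 : ℝ)).indicator hEm).const_mul _
    · change lam ^ 2 * E.indicator (fun _ => (1 : ℝ)) x ≤ ‖f x‖ ^ 2
      rw [hfn]
      by_cases hx : x ∈ E
      · rw [Set.indicator_of_mem hx, Set.indicator_of_mem hx, mul_one]
        exact pow_le_pow_left₀ hlam.le hx.2 2
      · rw [Set.indicator_of_notMem hx, Set.indicator_of_notMem hx]
        simp
  have hKε : (K : ℝ) ^ (1 + ε) = K * (K : ℝ) ^ ε := by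
    rw [Real.rpow_add hK0, Real.rpow_one]
  have hKε0 : 0 ≤ (K : ℝ) ^ ε := Real.rpow_nonneg hK0.le _
  have h5 : 2 * (C₁ * (K : ℝ) ^ ε * A ^ 2) * K ≤ lam ^ 4 := by
    refine le_trans ?_ hhyp
    rw [hKε]
    have : 0 ≤ (K : ℝ) * (K : ℝ) ^ ε * A ^ 2 := by positivity
    nlinarith
  have h6 := pb_alg I M (C₁ * (K : ℝ) ^ ε * A ^ 2) K lam _ A S hI0 hM0 (by positivity) hK0.le hlam hA0
    h1 hS0 (by
      calc A ^ 2 * S ^ 2 ≤ A ^ 2 * (C₁ * (K : ℝ) ^ ε * M ^ 2 * (K * M ^ 2 + I)) :=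
            mul_le_mul_of_nonneg_left h2 (by positivity)
        _ = _ := by ring) h3 h4 h5
  refine h6.trans ?_
  have : 0 ≤ (K : ℝ) ^ ε * A ^ 2 := by positivity
  nlinarith

end Pool.QN
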