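import Pool.Agent.H79.QN.Stmts3

/-!
# Board `qn`, row IND: induction on a finite set of points, cutting the interval
-/

set_option autoImplicit false

namespace Pool.Agent.H79.QN

open MeasureTheory

theorem ind : S_IND := by
  intro g ψ T δ μ E X hg hg0 hδ hE hX h1 h2 h3
  have hint : ∀ c d : ℝ, IntervalIntegrable g volume c d := fun c d => hg.intervalIntegrable c d
  have key : ∀ (T : Finset ℝ) (a b : ℝ), -1 ≤ a → a ≤ b → b ≤ 1 →
      (∀ x ∈ Set.Icc a b, (∀ t ∈ T, δ ≤ |x - t|) → μ ≤ |ψ x|) →
      ∫ x in a..b, g x ≤ ((2 : ℝ) ^ T.card - 1) * X + (2 : ℝ) ^ T.card * E := by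
    intro T
    induction T using Finset.induction_on with
    | empty =>
      intro a b ha hab hb h
      have := h1 a b ha hab hb (fun x hx => h x hx (by simp))
      simpa using this
    | insert t T' ht ih =>
      intro a b ha hab hb h
      rw [Finset.card_insert_of_notMem ht]
      have hpow : (1 : ℝ) ≤ (2 : ℝ) ^ T'.card := one_le_pow₀ (by norm_num)
      have k1 : 0 ≤ ((2 : ℝ) ^ T'.card - 1) * X := mul_nonneg (by linarith) hX
      have k2 : 0 ≤ (2 : ℝ) ^ T'.card * E := mul_nonneg (by linarith) hE
      obtain ⟨p, hp⟩ : ∃ p : ℝ, p = max a (min b (t - δ)) := ⟨_, rfl⟩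
      obtain ⟨q, hq⟩ : ∃ q : ℝ, q = max a (min b (t + δ)) := ⟨_, rfl⟩
      have hap : a ≤ p := by rw [hp]; exact le_max_left _ _
      have hpb : p ≤ b := by rw [hp]; exact max_le hab (min_le_left _ _)
      have haq : a ≤ q := by rw [hq]; exact le_max_left _ _
      have hqb : q ≤ b := by rw [hq]; exact max_le hab (min_le_left _ _)
      have hpq : p ≤ q := by
        rw [hp, hq]; exact max_le_max le_rfl (min_le_min le_rfl (by linarith))
      have hqp : q - p ≤ 2 * δ := by
        rw [hp, hq]
        simp only [max_def, min_def]
        split_ifs <;> linarith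
      have i1 : ∫ x in a..p, g x ≤ ((2 : ℝ) ^ T'.card - 1) * X + (2 : ℝ) ^ T'.card * E := by
        by_cases hc : p ≤ t - δ
        · refine ih a p ha hap (hpb.trans hb) (fun x hx hT => h x ⟨hx.1, hx.2.trans hpb⟩ ?_)
          intro s hs
          rcases Finset.mem_insert.1 hs with rfl | hs
          · rw [abs_sub_comm]
            exact le_trans (by linarith [hx.2]) (le_abs_self _)
          · exact hT s hs
        · have hpa : p = a := by
            rw [hp] at hc ⊢
            rcases le_total a (min b (t - δ)) with h' | h'
            · exfalso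
              apply hc
              rw [max_eq_right h']
              exact min_le_right _ _
            · exact max_eq_left h'
          rw [hpa, intervalIntegral.integral_same]
          linarith
      have i2 : ∫ x in p..q, g x ≤ X := h2 p q (ha.trans hap) hpq (hqb.trans hb) hqp
      have i3 : ∫ x in q..b, g x ≤ ((2 : ℝ) ^ T'.card - 1) * X + (2 : ℝ) ^ T'.card * E := by
        by_cases hc : t + δ ≤ q
        · refine ih q b (ha.trans haq) hqb hb (fun x hx hT => h x ⟨haq.trans hx.1, hx.2⟩ ?_)
          intro s hs
          rcases Finset.mem_insert.1 hs with rfl | hs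
          · exact le_trans (by linarith [hx.1]) (le_abs_self _)
          · exact hT s hs
        · have hqb' : q = b := by
            rw [hq] at hc ⊢
            rcases le_total b (t + δ) with h' | h'
            · rw [min_eq_left h', max_eq_right hab]
            · exfalso
              apply hc
              rw [min_eq_right h']
              exact le_max_right _ _
          rw [hqb', intervalIntegral.integral_same]
          linarith
      have e1 := intervalIntegral.integral_add_adjacent_intervals (hint a p) (hint p q)
      have e2 := intervalIntegral.integral_add_adjacent_intervals (hint a q) (hint q b)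
      rw [pow_succ]
      linarith
  have := key T (-1) 1 le_rfl (by norm_num) le_rfl h3
  have hX' : ((2 : ℝ) ^ T.card - 1) * X ≤ (2 : ℝ) ^ T.card * X :=
    mul_le_mul_of_nonneg_right (by linarith) hX
  calc ∫ x in (-1 : ℝ)..1, g x ≤ ((2 : ℝ) ^ T.card - 1) * X + (2 : ℝ) ^ T.card * E := this
    _ ≤ (2 : ℝ) ^ T.card * X + (2 : ℝ) ^ T.card * E := by linarith
    _ = 2 ^ T.card * (E + X) := by ring

end Pool.Agent.H79.QN
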