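import Pool.Agent.H79.QN.Stmts

/-!
# Row NC2 of the board `qn`
-/

set_option autoImplicit false

namespace Pool.Agent.H79.QN

open Finset

theorem nc2_size (η : ℝ) (N : ℕ) (hN : 1 ≤ N) (z : ℤ × ℤ) (hη : 0 < η)
    (h1 : |z.1| ≤ N) (h2 : |z.2| ≤ N) (h3 : η * N ≤ |(z.1 : ℝ) - z.2|) :
    (2 : ℝ) ^ iOf (wz z) ≤ 3 * N ∧ η * N < 2 * 2 ^ iOf (wz z) ∧
      (4 : ℝ) ^ jOf (wz z) ≤ 5 * (N : ℝ) ^ 2 ∧ η ^ 2 * (N : ℝ) ^ 2 < 4 * 4 ^ jOf (wz z) := by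
  have hN' : (1 : ℝ) ≤ N := by exact_mod_cast hN
  have a1 : |(z.1 : ℝ)| ≤ N := by exact_mod_cast h1
  have a2 : |(z.2 : ℝ)| ≤ N := by exact_mod_cast h2
  have b1 := abs_le.1 a1
  have b2 := abs_le.1 a2
  have hw2 : (((wz z).2.natAbs : ℕ) : ℝ) = |(z.1 : ℝ) - z.2| := by
    rw [Nat.cast_natAbs]
    simp only [wz]
    push_cast
    rfl
  have hd : |(z.1 : ℝ) - z.2| ≤ 2 * N := by
    rw [abs_le]
    constructor <;> linarith
  have hns : (((nsq (wz z)).natAbs : ℕ) : ℝ) = 2 * (z.1 : ℝ) ^ 2 + 2 * (z.2 : ℝ) ^ 2 := by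
    have e : nsq (wz z) = 2 * z.1 ^ 2 + 2 * z.2 ^ 2 := by
      simp only [nsq, wz]
      ring
    rw [Nat.cast_natAbs, e, abs_of_nonneg (by positivity)]
    push_cast
    ring
  have s1 : (z.1 : ℝ) ^ 2 ≤ (N : ℝ) ^ 2 := sq_le_sq' (by linarith) b1.2
  have s2 : (z.2 : ℝ) ^ 2 ≤ (N : ℝ) ^ 2 := sq_le_sq' (by linarith) b2.2
  have s3 : η ^ 2 * (N : ℝ) ^ 2 ≤ 2 * (z.1 : ℝ) ^ 2 + 2 * (z.2 : ℝ) ^ 2 := by
    have h4 : (η * N) ^ 2 ≤ |(z.1 : ℝ) - z.2| ^ 2 := pow_le_pow_left₀ (by positivity) h3 2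
    rw [sq_abs, mul_pow] at h4
    nlinarith [sq_nonneg ((z.1 : ℝ) + z.2)]
  refine ⟨?_, ?_, ?_, ?_⟩
  · have h := Nat.pow_log_le_self 2 (show (wz z).2.natAbs + 1 ≠ 0 by omega)
    have h' : (2 : ℝ) ^ iOf (wz z) ≤ ((wz z).2.natAbs : ℝ) + 1 := by
      unfold iOf
      exact_mod_cast h
    rw [hw2] at h'
    linarith
  · have h := Nat.lt_pow_succ_log_self (show 1 < 2 by norm_num) ((wz z).2.natAbs + 1)
    have h' : ((wz z).2.natAbs : ℝ) + 1 < 2 ^ (iOf (wz z) + 1) := by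
      unfold iOf
      exact_mod_cast h
    rw [hw2, pow_succ] at h'
    linarith
  · have h := Nat.pow_log_le_self 4 (show (nsq (wz z)).natAbs + 1 ≠ 0 by omega)
    have h' : (4 : ℝ) ^ jOf (wz z) ≤ ((nsq (wz z)).natAbs : ℝ) + 1 := by
      unfold jOf
      exact_mod_cast h
    rw [hns] at h'
    nlinarith
  · have h := Nat.lt_pow_succ_log_self (show 1 < 4 by norm_num) ((nsq (wz z)).natAbs + 1)
    have h' : ((nsq (wz z)).natAbs : ℝ) + 1 < 4 ^ (jOf (wz z) + 1) := by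
      unfold jOf
      exact_mod_cast h
    have e : (4 : ℝ) ^ (jOf (wz z) + 1) = 4 ^ jOf (wz z) * 4 := pow_succ _ _
    rw [hns, e] at h'
    linarith

theorem nc2_Lb (c₀ η : ℝ) (N : ℕ) (i j : ℕ) (hc : 0 < c₀) (hη : 0 < η) (hN : 1 ≤ N)
    (h1 : η * N < 2 * 2 ^ i) (h2 : (4 : ℝ) ^ j ≤ 5 * (N : ℝ) ^ 2) :
    c₀ * η ^ 2 / 12 * (N : ℝ) ^ (2 / 3 : ℝ) ≤ Lb c₀ i j := by
  have hN0 : (0 : ℝ) < N := by exact_mod_cast hN
  set X : ℝ := (N : ℝ) ^ (2 / 3 : ℝ) with hX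
  set Y : ℝ := ((2 : ℝ) ^ j) ^ (4 / 3 : ℝ) with hY
  have hX0 : 0 < X := Real.rpow_pos_of_pos hN0 _
  have hY0 : 0 < Y := Real.rpow_pos_of_pos (by positivity) _
  have hX3 : X ^ 3 = (N : ℝ) ^ 2 := by
    rw [hX, ← Real.rpow_natCast, ← Real.rpow_mul hN0.le]
    norm_num
  have hY3 : Y ^ 3 = ((4 : ℝ) ^ j) ^ 2 := by
    rw [hY, ← Real.rpow_natCast, ← Real.rpow_mul (by positivity)]
    norm_num
    rw [show ((4 : ℝ) ^ j) = ((2 : ℝ) ^ j) ^ 2 by rw [← pow_mul, mul_comm, pow_mul]; norm_num]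
    ring
  have hYX : Y ≤ 3 * X ^ 2 := by
    refine le_of_pow_le_pow_left₀ (show (3 : ℕ) ≠ 0 by norm_num) (by positivity) ?_
    rw [hY3]
    have h3 : ((4 : ℝ) ^ j) ^ 2 ≤ (5 * (N : ℝ) ^ 2) ^ 2 := pow_le_pow_left₀ (by positivity) h2 2
    rw [← hX3] at h3
    have h4 : 0 < X ^ 6 := by positivity
    nlinarith
  have h4i : η ^ 2 * (N : ℝ) ^ 2 ≤ 4 * (4 : ℝ) ^ i := by
    have h3 : (η * N) ^ 2 ≤ (2 * 2 ^ i) ^ 2 := pow_le_pow_left₀ (by positivity) h1.le 2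
    rw [mul_pow, mul_pow] at h3
    have e : ((2 : ℝ) ^ i) ^ 2 = 4 ^ i := by rw [← pow_mul, mul_comm, pow_mul]; norm_num
    rw [e] at h3
    linarith
  have key : c₀ * η ^ 2 / 12 * X ≤ c₀ * 4 ^ i / Y := by
    rw [le_div_iff₀ hY0]
    have h5 : c₀ * η ^ 2 / 12 * X * Y ≤ c₀ * η ^ 2 / 12 * X * (3 * X ^ 2) :=
      mul_le_mul_of_nonneg_left hYX (by positivity)
    have h6 : c₀ * η ^ 2 / 12 * X * (3 * X ^ 2) = c₀ * (η ^ 2 * (N : ℝ) ^ 2) / 4 := by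
      rw [← hX3]
      ring
    have h7 : c₀ * (η ^ 2 * (N : ℝ) ^ 2) ≤ c₀ * (4 * (4 : ℝ) ^ i) :=
      mul_le_mul_of_nonneg_left h4i hc.le
    rw [h6] at h5
    linarith
  exact key.trans (le_max_right _ _)

theorem nc2_floor (a b : ℝ) (D : ℕ) (h : |a - b| + 1 < D) : ⌊a⌋ - ⌊b⌋ ∈ Icc (-(D : ℤ)) D := by
  have h1 := Int.floor_le a
  have h2 := Int.lt_floor_add_one a
  have h3 := Int.floor_le b
  have h4 := Int.lt_floor_add_one b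
  have h5 := abs_le.1 (le_refl |a - b|)
  rw [mem_Icc]
  constructor
  · have : (-(D : ℝ)) ≤ (⌊a⌋ : ℝ) - ⌊b⌋ := by linarith
    exact_mod_cast this
  · have : (⌊a⌋ : ℝ) - ⌊b⌋ ≤ D := by linarith
    exact_mod_cast this

theorem nc2 : S_NC2 := by
  intro c₀ η hc hη
  obtain ⟨M, hM⟩ := pow_unbounded_of_one_lt (6 / η) (by norm_num : (1 : ℝ) < 2)
  obtain ⟨M', hM'⟩ := pow_unbounded_of_one_lt (20 / η ^ 2) (by norm_num : (1 : ℝ) < 4)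
  obtain ⟨D, hD⟩ := exists_nat_gt (2 / (c₀ * η ^ 2 / 12) + 1)
  refine ⟨4 * ((2 * (M : ℝ) + 1) * (2 * M' + 1) * (2 * D + 1)), by positivity, ?_⟩
  intro N K₀ A B hN hA hB hdA hdB hsep
  classical
  have hN0 : (0 : ℝ) < N := by exact_mod_cast hN
  rcases (A ×ˢ B).eq_empty_or_nonempty with h | ⟨z₀, hz₀⟩
  · rw [h, image_empty, card_empty]
    push_cast
    positivity
  have hfac : ∀ z ∈ A ×ˢ B, (2 : ℝ) ^ iOf (wz z) ≤ 3 * N ∧ η * N < 2 * 2 ^ iOf (wz z) ∧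
      (4 : ℝ) ^ jOf (wz z) ≤ 5 * (N : ℝ) ^ 2 ∧ η ^ 2 * (N : ℝ) ^ 2 < 4 * 4 ^ jOf (wz z) := by
    intro z hz
    obtain ⟨h1, h2⟩ := mem_product.1 hz
    exact nc2_size η N hN z hη (hA _ h1) (hB _ h2) (hsep _ h1 _ h2)
  have hi : ∀ z ∈ A ×ˢ B, ∀ z' ∈ A ×ˢ B, iOf (wz z) ≤ iOf (wz z') + M := by
    intro z hz z' hz'
    have h1 := (hfac z hz).1
    have h2 := (hfac z' hz').2.1
    have h3 : (2 : ℝ) ^ iOf (wz z) < 2 ^ (iOf (wz z') + M) := by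
      rw [pow_add]
      have h4 : (N : ℝ) < 2 * 2 ^ iOf (wz z') / η := by
        rw [lt_div_iff₀ hη]
        linarith
      calc (2 : ℝ) ^ iOf (wz z) ≤ 3 * N := h1
        _ < 3 * (2 * 2 ^ iOf (wz z') / η) := by linarith
        _ = 2 ^ iOf (wz z') * (6 / η) := by ring
        _ ≤ 2 ^ iOf (wz z') * 2 ^ M := mul_le_mul_of_nonneg_left hM.le (by positivity)
    exact ((pow_lt_pow_iff_right₀ (by norm_num : (1 : ℝ) < 2)).1 h3).le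
  have hj : ∀ z ∈ A ×ˢ B, ∀ z' ∈ A ×ˢ B, jOf (wz z) ≤ jOf (wz z') + M' := by
    intro z hz z' hz'
    have h1 := (hfac z hz).2.2.1
    have h2 := (hfac z' hz').2.2.2
    have h3 : (4 : ℝ) ^ jOf (wz z) < 4 ^ (jOf (wz z') + M') := by
      rw [pow_add]
      have h4 : (N : ℝ) ^ 2 < 4 * 4 ^ jOf (wz z') / η ^ 2 := by
        rw [lt_div_iff₀ (by positivity)]
        linarith
      calc (4 : ℝ) ^ jOf (wz z) ≤ 5 * (N : ℝ) ^ 2 := h1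
        _ < 5 * (4 * 4 ^ jOf (wz z') / η ^ 2) := by linarith
        _ = 4 ^ jOf (wz z') * (20 / η ^ 2) := by ring
        _ ≤ 4 ^ jOf (wz z') * 4 ^ M' := mul_le_mul_of_nonneg_left hM'.le (by positivity)
    exact ((pow_lt_pow_iff_right₀ (by norm_num : (1 : ℝ) < 4)).1 h3).le
  -- the map
  let g : (Bool × Bool) × (ℕ × ℕ) × ℤ → (Bool × Bool) × (ℕ × ℕ) × ℤ := fun q =>
    (q.1, q.2.1, (⌊((wz z₀).1 : ℝ) / Lb c₀ q.2.1.1 q.2.1.2⌋ + q.2.2) % (K₀ : ℤ))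
  let T : Finset ((Bool × Bool) × (ℕ × ℕ) × ℤ) := univ ×ˢ
    ((Icc (iOf (wz z₀) - M) (iOf (wz z₀) + M) ×ˢ Icc (jOf (wz z₀) - M') (jOf (wz z₀) + M')) ×ˢ
      Icc (-(D : ℤ)) D)
  have hsub : (A ×ˢ B).image (fun z => cls c₀ K₀ (wz z)) ⊆ T.image g := by
    intro x hx
    obtain ⟨z, hz, rfl⟩ := mem_image.1 hx
    set L := Lb c₀ (iOf (wz z)) (jOf (wz z)) with hL
    have hLb : c₀ * η ^ 2 / 12 * (N : ℝ) ^ (2 / 3 : ℝ) ≤ L :=
      nc2_Lb c₀ η N _ _ hc hη hN (hfac z hz).2.1 (hfac z hz).2.2.1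
    have hX0 : 0 < (N : ℝ) ^ (2 / 3 : ℝ) := Real.rpow_pos_of_pos hN0 _
    have hc0 : 0 < c₀ * η ^ 2 / 12 := by positivity
    have hL0 : 0 < L := lt_of_lt_of_le (by positivity) hLb
    have hs : |((wz z).1 : ℝ) - (wz z₀).1| ≤ 2 * (N : ℝ) ^ (2 / 3 : ℝ) := by
      obtain ⟨h1, h2⟩ := mem_product.1 hz
      obtain ⟨h3, h4⟩ := mem_product.1 hz₀
      have e : ((wz z).1 : ℝ) - (wz z₀).1 = ((z.1 : ℝ) - z₀.1) + ((z.2 : ℝ) - z₀.2) := by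
        simp only [wz]
        push_cast
        ring
      rw [e]
      refine (abs_add_le _ _).trans ?_
      have := hdA _ h1 _ h3
      have := hdB _ h2 _ h4
      linarith
    have hfl : ⌊((wz z).1 : ℝ) / L⌋ - ⌊((wz z₀).1 : ℝ) / L⌋ ∈ Icc (-(D : ℤ)) D := by
      apply nc2_floor
      rw [← sub_div, abs_div, abs_of_pos hL0]
      have h1 : |((wz z).1 : ℝ) - (wz z₀).1| / L ≤ 2 / (c₀ * η ^ 2 / 12) := by
        rw [div_le_div_iff₀ hL0 hc0]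
        nlinarith
      linarith
    refine mem_image.2 ⟨((decide (0 ≤ (wz z).1), decide (0 ≤ (wz z).2)),
      (iOf (wz z), jOf (wz z)), ⌊((wz z).1 : ℝ) / L⌋ - ⌊((wz z₀).1 : ℝ) / L⌋), ?_, ?_⟩
    · refine mem_product.2 ⟨mem_univ _, mem_product.2 ⟨mem_product.2 ⟨?_, ?_⟩, hfl⟩⟩
      · change iOf (wz z) ∈ _
        rw [mem_Icc]
        have := hi z hz z₀ hz₀
        have := hi z₀ hz₀ z hz
        constructor <;> omega
      · change jOf (wz z) ∈ _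
        rw [mem_Icc]
        have := hj z hz z₀ hz₀
        have := hj z₀ hz₀ z hz
        constructor <;> omega
    · simp only [g, cls]
      rw [← hL]
      congr 3
      ring
  have hcard : ((A ×ˢ B).image (fun z => cls c₀ K₀ (wz z))).card ≤
      4 * ((2 * M + 1) * (2 * M' + 1) * (2 * D + 1)) := by
    refine (card_le_card hsub).trans (card_image_le.trans ?_)
    simp only [T]
    rw [card_product, card_product, card_product, Nat.card_Icc, Nat.card_Icc, Int.card_Icc]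
    have e1 : (univ : Finset (Bool × Bool)).card = 4 := by decide
    rw [e1]
    have e2 : iOf (wz z₀) + M + 1 - (iOf (wz z₀) - M) ≤ 2 * M + 1 := by omega
    have e3 : jOf (wz z₀) + M' + 1 - (jOf (wz z₀) - M') ≤ 2 * M' + 1 := by omega
    have e4 : ((D : ℤ) + 1 - -(D : ℤ)).toNat ≤ 2 * D + 1 := by omega
    exact Nat.mul_le_mul_left 4 (Nat.mul_le_mul (Nat.mul_le_mul e2 e3) e4)
  exact_mod_cast hcard

end Pool.Agent.H79.QN
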